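import Pool.Agent.Work.MP_ce2d68_st.Interface

set_option autoImplicit false

open Polynomial Filter Topology
open scoped ComplexConjugate

namespace Pool.Agent.Work.MP_ce2d68_st.helper12

lemma adm_mono {θ θ' : ℝ} (h : θ ≤ θ') {P : ℤ[X]} (hP : Adm θ P) : Adm θ' P :=
  ⟨hP.1, hP.2.1, hP.2.2.1, fun z hz => le_trans (hP.2.2.2.1 z hz) h, hP.2.2.2.2⟩

/-- the set of values -/
def VV (θ : ℝ) : Set ℝ := (fun P => Real.exp (lv P)) '' {P : ℤ[X] | Adm θ P}

lemma VV_eq (hTRL : Stmt_TRL) (θ : ℝ) : nM '' {α | IsSec θ α} = VV θ := by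
  ext x
  constructor
  · rintro ⟨α, hα, rfl⟩
    obtain ⟨h1, h2, h3⟩ := hTRL.1 θ α hα
    exact ⟨minpoly ℤ α, h1, h2.symm⟩
  · rintro ⟨P, hP, rfl⟩
    obtain ⟨⟨α, hα⟩, h2⟩ := hTRL.2 θ P hP
    obtain ⟨h3, h4⟩ := h2 α hα
    refine ⟨α, h3, ?_⟩
    rw [(hTRL.1 θ α h3).2.1, h4]

lemma cth_eq (hTRL : Stmt_TRL) (θ : ℝ) : cth θ = sInf (VV θ) := by
  rw [cth, VV_eq hTRL]

lemma VV_bdd (θ : ℝ) : BddBelow (VV θ) := ⟨0, by rintro _ ⟨P, _, rfl⟩; positivity⟩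

lemma gold_mem (hGOL : Stmt_GOL) {θ : ℝ} (h : 0 ≤ θ) :
    Real.exp (Real.log ((1 + √5) / 2)) ∈ VV θ :=
  ⟨X ^ 2 - 3 * X + 1, adm_mono h hGOL.1, by simp only [hGOL.2]⟩

lemma cth_anti (hTRL : Stmt_TRL) (hGOL : Stmt_GOL) {θ θ' : ℝ} (h0 : 0 ≤ θ) (h : θ ≤ θ') :
    cth θ' ≤ cth θ := by
  rw [cth_eq hTRL, cth_eq hTRL]
  apply csInf_le_csInf (VV_bdd _) ⟨_, gold_mem hGOL h0⟩
  rintro _ ⟨P, hP, rfl⟩
  exact ⟨P, adm_mono h hP, rfl⟩

/-- lower bound to the right -/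
lemma lb (hTRL : Stmt_TRL) (hGOL : Stmt_GOL) {θ δ v : ℝ} (h0 : 0 ≤ θ) (hδ : 0 < δ)
    (hfin : {P : ℤ[X] | Adm (θ + δ) P ∧ Real.exp (lv P) ≤ v}.Finite) :
    ∃ ε : ℝ, 0 < ε ∧ ∀ θ' ∈ Set.Ico θ (θ + ε), min v (cth θ) ≤ cth θ' := by
  have key : ∀ᶠ t in 𝓝[>] (0 : ℝ), ∀ P ∈ {P : ℤ[X] | Adm (θ + δ) P ∧ Real.exp (lv P) ≤ v},
      (Adm (θ + t) P → Adm θ P) := by
    rw [Filter.eventually_all_finite hfin]
    intro P hP
    by_cases hA : Adm θ P
    · exact Eventually.of_forall fun _ _ => hA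
    · have hz : ∃ z ∈ rts P, θ < |z.arg| := by
        by_contra hcon
        push Not at hcon
        exact hA ⟨hP.1.1, hP.1.2.1, hP.1.2.2.1, hcon, hP.1.2.2.2.2⟩
      obtain ⟨z, hz, hz'⟩ := hz
      have : ∀ᶠ t in 𝓝[>] (0 : ℝ), t < |z.arg| - θ :=
        (eventually_lt_nhds (by linarith)).filter_mono nhdsWithin_le_nhds
      filter_upwards [this] with t ht hAt
      have := hAt.2.2.2.1 z hz
      linarith
  have key2 : ∀ᶠ t in 𝓝[>] (0 : ℝ), t < δ :=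
    (eventually_lt_nhds hδ).filter_mono nhdsWithin_le_nhds
  have key3 : ∀ᶠ t in 𝓝[>] (0 : ℝ), 0 < t := self_mem_nhdsWithin
  obtain ⟨t, ht1, ht2, ht3⟩ := (key.and (key2.and key3)).exists
  refine ⟨t, ht3, ?_⟩
  intro θ' hθ'
  rw [cth_eq hTRL θ']
  apply le_csInf ⟨_, gold_mem hGOL (le_trans h0 hθ'.1)⟩
  rintro _ ⟨P, hP, rfl⟩
  by_cases hv : Real.exp (lv P) ≤ v
  · refine le_trans (min_le_right _ _) ?_
    rw [cth_eq hTRL θ]
    apply csInf_le (VV_bdd _)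
    exact ⟨P, ht1 P ⟨adm_mono (by linarith [hθ'.2]) hP, hv⟩ (adm_mono (by linarith [hθ'.2]) hP),
      rfl⟩
  · exact le_trans (min_le_left _ _) (not_le.1 hv).le

lemma fin_adm (hLEP : Stmt_LEP) {θ : ℝ} (h0 : 0 < θ) (h1 : θ < Real.pi) {v : ℝ}
    (hv : v < Real.exp (lec θ)) : {P : ℤ[X] | Adm θ P ∧ Real.exp (lv P) ≤ v}.Finite := by
  rcases le_or_gt v 0 with hv0 | hv0
  · convert Set.finite_empty
    ext P
    simp only [Set.mem_setOf_eq, Set.mem_empty_iff_false, iff_false, not_and, not_le]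
    intro _
    exact lt_of_le_of_lt hv0 (Real.exp_pos _)
  · have hlog : Real.log v < lec θ := by
      rw [← Real.log_exp (lec θ)]
      exact Real.log_lt_log hv0 hv
    apply (hLEP.2.2.2.1 θ h0 h1 _ hlog).subset
    rintro P ⟨hP, hPv⟩
    refine ⟨hP, ?_⟩
    rw [← Real.log_exp (lv P)]
    exact Real.log_le_log (Real.exp_pos _) hPv

lemma cth_le (hTRL : Stmt_TRL) (hLEP : Stmt_LEP) {θ : ℝ} (h0 : 0 < θ) (h1 : θ < Real.pi) :
    cth θ ≤ Real.exp (lec θ) := by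
  have hA := (hLEP.1 θ h0 h1).2.1
  have h : ∀ ε : ℝ, 0 < ε → cth θ ≤ Real.exp (lec θ + ε) := by
    intro ε hε
    obtain ⟨F, hF, _, hF2⟩ := hA ε hε 0
    rw [cth_eq hTRL]
    exact le_trans (csInf_le (VV_bdd _) ⟨F, hF, rfl⟩) (Real.exp_le_exp.2 hF2)
  have hc : Tendsto (fun ε : ℝ => Real.exp (lec θ + ε)) (𝓝[>] 0) (𝓝 (Real.exp (lec θ))) := by
    have h' : ContinuousAt (fun ε : ℝ => Real.exp (lec θ + ε)) 0 := by fun_prop
    have h'' := h'.tendsto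
    simp only [add_zero] at h''
    exact h''.mono_left nhdsWithin_le_nhds
  refine ge_of_tendsto hc ?_
  filter_upwards [self_mem_nhdsWithin] with ε hε
  exact h ε hε

lemma exists_delta (hLEP : Stmt_LEP) {θ v : ℝ} (h0 : 0 < θ) (h1 : θ < Real.pi)
    (hv : v < Real.exp (lec θ)) : ∃ δ : ℝ, 0 < δ ∧ θ + δ < Real.pi ∧
      v < Real.exp (lec (θ + δ)) := by
  have hcont : ContinuousAt lec θ := hLEP.2.1.continuousAt (Ioo_mem_nhds h0 h1)
  have hcont' : ContinuousAt (fun δ => Real.exp (lec (θ + δ))) 0 := by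
    have h2 : ContinuousAt (fun δ : ℝ => θ + δ) 0 := by fun_prop
    have : ContinuousAt (fun δ : ℝ => lec (θ + δ)) 0 :=
      hcont.comp_of_eq h2 (by simp)
    exact this.rexp
  have e1 : ∀ᶠ δ in 𝓝 (0 : ℝ), v < Real.exp (lec (θ + δ)) := by
    apply hcont'.eventually
    simpa using lt_mem_nhds hv
  have e2 : ∀ᶠ δ in 𝓝 (0 : ℝ), δ < Real.pi - θ := eventually_lt_nhds (by linarith)
  obtain ⟨δ, h1', h2', h3'⟩ := ((e1.filter_mono nhdsWithin_le_nhds).and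
    ((e2.filter_mono nhdsWithin_le_nhds).and
      (self_mem_nhdsWithin : ∀ᶠ δ in 𝓝[>] (0 : ℝ), 0 < δ))).exists
  exact ⟨δ, h3', by linarith, h1'⟩

lemma lb2 (hTRL : Stmt_TRL) (hGOL : Stmt_GOL) (hLEP : Stmt_LEP) {θ v : ℝ} (h0 : 0 < θ)
    (h1 : θ < Real.pi) (hv : v < Real.exp (lec θ)) :
    ∃ ε : ℝ, 0 < ε ∧ ∀ θ' ∈ Set.Ico θ (θ + ε), min v (cth θ) ≤ cth θ' := by
  obtain ⟨δ, hδ, hδ1, hδ2⟩ := exists_delta hLEP h0 h1 hv
  exact lb hTRL hGOL h0.le hδ (fin_adm hLEP (by linarith) hδ1 hδ2)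

lemma const_iff (hTRL : Stmt_TRL) (hGOL : Stmt_GOL) (hLEP : Stmt_LEP) {θ : ℝ} (h0 : 0 < θ)
    (h1 : θ < Real.pi) :
    (∃ ε : ℝ, 0 < ε ∧ ∀ θ' ∈ Set.Ico θ (θ + ε), cth θ' = cth θ) ↔
      cth θ < Real.exp (lec θ) := by
  constructor
  · rintro ⟨ε, hε, h⟩
    obtain ⟨θ', h2, h3⟩ : ∃ θ', θ < θ' ∧ θ' < min (θ + ε) Real.pi :=
      exists_between (lt_min (by linarith) h1)
    have h4 := lt_of_lt_of_le h3 (min_le_left _ _)
    have h5 := lt_of_lt_of_le h3 (min_le_right _ _)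
    rw [← h θ' ⟨h2.le, h4⟩]
    refine lt_of_le_of_lt (cth_le hTRL hLEP (by linarith) h5) (Real.exp_lt_exp.2 ?_)
    exact hLEP.2.2.1 ⟨h0, h1⟩ ⟨by linarith, h5⟩ h2
  · intro h
    obtain ⟨v, hv1, hv2⟩ := exists_between h
    obtain ⟨ε, hε, hlb⟩ := lb2 hTRL hGOL hLEP h0 h1 hv2
    refine ⟨ε, hε, fun θ' hθ' => le_antisymm (cth_anti hTRL hGOL h0.le hθ'.1) ?_⟩
    have := hlb θ' hθ'
    rwa [min_eq_right hv1.le] at this

lemma zer_const (hZER : Stmt_ZER) (hTRL : Stmt_TRL) (hGOL : Stmt_GOL) :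
    ∃ ε : ℝ, 0 < ε ∧ ε < Real.pi ∧ ∀ θ' ∈ Set.Ico (0 : ℝ) ε, cth θ' = cth 0 := by
  obtain ⟨ε, hε, hε1, h⟩ := hZER
  refine ⟨ε, hε, hε1, ?_⟩
  have hval : ∀ θ ∈ Set.Ico (0 : ℝ) ε, cth θ = Real.exp (Real.log ((1 + √5) / 2)) := by
    intro θ hθ
    rw [cth_eq hTRL]
    apply le_antisymm
    · exact csInf_le (VV_bdd _) (gold_mem hGOL hθ.1)
    · apply le_csInf ⟨_, gold_mem hGOL hθ.1⟩
      rintro _ ⟨P, hP, rfl⟩
      exact Real.exp_le_exp.2 (h P (adm_mono hθ.2.le hP))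
  intro θ' hθ'
  rw [hval θ' hθ', hval 0 ⟨le_refl _, hε⟩]

lemma right_cont (hTRL : Stmt_TRL) (hGOL : Stmt_GOL) (hLEP : Stmt_LEP) {θ : ℝ} (h0 : 0 < θ)
    (h1 : θ < Real.pi) : ContinuousWithinAt cth (Set.Ici θ) θ := by
  apply tendsto_order.2
  constructor
  · intro a ha
    obtain ⟨v, hv1, hv2⟩ := exists_between ha
    obtain ⟨ε, hε, hlb⟩ := lb2 hTRL hGOL hLEP h0 h1
      (lt_of_lt_of_le hv2 (cth_le hTRL hLEP h0 h1))
    have : Set.Ico θ (θ + ε) ∈ 𝓝[≥] θ := Ico_mem_nhdsGE (by linarith)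
    filter_upwards [this] with θ' hθ'
    have h2 := hlb θ' hθ'
    rw [min_eq_left hv2.le] at h2
    exact lt_of_lt_of_le hv1 h2
  · intro a ha
    filter_upwards [self_mem_nhdsWithin] with θ' hθ'
    exact lt_of_le_of_lt (cth_anti hTRL hGOL h0.le hθ') ha

lemma log_ineq {k δ T : ℝ} (hk : 1 ≤ k) (hδ : 0 < δ) (hδ1 : δ ≤ 1) (hT : 0 ≤ T)
    (h : T * δ ≤ k * Real.log (1 + T)) :
    T ≤ k * (Real.log (5 * k ^ 2) / Real.log 2 + 2) * Real.log (2 / δ) / δ := by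
  have hlog2 : 0 < Real.log 2 := Real.log_pos one_lt_two
  have hs : 0 ≤ √T := Real.sqrt_nonneg _
  have hss : √T * √T = T := Real.mul_self_sqrt hT
  have h1 : Real.log (1 + T) ≤ 2 * √T := by
    have h2 : 1 + T ≤ (1 + √T) ^ 2 := by nlinarith
    have h3 : Real.log (1 + T) ≤ Real.log ((1 + √T) ^ 2) :=
      Real.log_le_log (by linarith) h2
    rw [Real.log_pow] at h3
    have h4 : Real.log (1 + √T) ≤ √T := by
      have := Real.log_le_sub_one_of_pos (show (0 : ℝ) < 1 + √T by linarith)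
      linarith
    push_cast at h3
    linarith
  have h2 : √T * δ ≤ 2 * k := by
    by_contra hcon
    push Not at hcon
    have hsp : 0 < √T := by
      rcases hs.lt_or_eq with h' | h'
      · exact h'
      · rw [← h'] at hcon; simp at hcon; linarith
    have h3 : T * δ ≤ k * (2 * √T) := le_trans h (mul_le_mul_of_nonneg_left h1 (by linarith))
    have h4 : √T * (√T * δ) ≤ √T * (2 * k) := by
      calc √T * (√T * δ) = (√T * √T) * δ := by ring
        _ = T * δ := by rw [hss]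
        _ ≤ k * (2 * √T) := h3
        _ = √T * (2 * k) := by ring
    have := le_of_mul_le_mul_left h4 hsp
    linarith
  have h3 : T * δ ^ 2 ≤ 4 * k ^ 2 := by
    have : (√T * δ) ^ 2 ≤ (2 * k) ^ 2 := pow_le_pow_left₀ (by positivity) h2 2
    calc T * δ ^ 2 = (√T * δ) ^ 2 := by rw [mul_pow, Real.sq_sqrt hT]
      _ ≤ (2 * k) ^ 2 := this
      _ = 4 * k ^ 2 := by ring
  have h4 : 1 + T ≤ 5 * k ^ 2 * (2 / δ) ^ 2 := by
    have hδ2 : 0 < δ ^ 2 := by positivity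
    have : (1 + T) * δ ^ 2 ≤ 5 * k ^ 2 * 4 := by nlinarith
    calc 1 + T = (1 + T) * δ ^ 2 / δ ^ 2 := by field_simp
      _ ≤ 5 * k ^ 2 * 4 / δ ^ 2 := by gcongr
      _ = 5 * k ^ 2 * (2 / δ) ^ 2 := by ring
  have h5 : Real.log (1 + T) ≤ Real.log (5 * k ^ 2) + 2 * Real.log (2 / δ) := by
    have hk2 : 0 < 5 * k ^ 2 := by positivity
    have := Real.log_le_log (by linarith) h4
    rw [Real.log_mul hk2.ne' (by positivity), Real.log_pow] at this
    push_cast at this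
    exact this
  have h6 : Real.log 2 ≤ Real.log (2 / δ) := by
    apply Real.log_le_log two_pos
    rw [le_div_iff₀ hδ]; nlinarith
  have h7 : 0 ≤ Real.log (5 * k ^ 2) := Real.log_nonneg (by nlinarith)
  have h8 : Real.log (5 * k ^ 2) ≤ Real.log (5 * k ^ 2) / Real.log 2 * Real.log (2 / δ) := by
    calc Real.log (5 * k ^ 2) = Real.log (5 * k ^ 2) / Real.log 2 * Real.log 2 := by
          field_simp
      _ ≤ _ := by gcongr
  rw [le_div_iff₀ hδ]
  calc T * δ ≤ k * Real.log (1 + T) := h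
    _ ≤ k * (Real.log (5 * k ^ 2) / Real.log 2 * Real.log (2 / δ) + 2 * Real.log (2 / δ)) := by
        apply mul_le_mul_of_nonneg_left _ (by linarith)
        linarith
    _ = _ := by ring

lemma natDegree_pos_of_sec (hTRL : Stmt_TRL) {θ : ℝ} {α : ℂ} (h : IsSec θ α) :
    0 < (minpoly ℤ α).natDegree := by
  have hA := (hTRL.1 θ α h).1
  rcases Nat.eq_zero_or_pos (minpoly ℤ α).natDegree with h0 | h0
  · exfalso
    have h1 := hA.1.natDegree_eq_zero.1 h0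
    exact hA.2.1.not_isUnit (h1 ▸ isUnit_one)
  · exact h0

theorem stmt_FIN (hLAN : Stmt_LAN) (hZER : Stmt_ZER) (hGOL : Stmt_GOL) (hLEP : Stmt_LEP)
    (hTRL : Stmt_TRL) (hSCR : Stmt_SCR) : Stmt_FIN := by
  refine ⟨fun θ => Real.exp (lec θ), ?_, ?_, ?_, ?_, ?_, ?_, ?_⟩
  · exact hLEP.2.1.rexp
  · intro a ha b hb hab
    exact Real.exp_lt_exp.2 (hLEP.2.2.1 ha hb hab)
  · rintro θ ⟨h0, h1⟩
    refine ⟨?_, cth_le hTRL hLEP h0 h1, ?_, ?_, const_iff hTRL hGOL hLEP h0 h1⟩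
    · obtain ⟨L, hL, hLP⟩ := hLAN θ h0 h1
      rw [cth_eq hTRL]
      refine lt_of_lt_of_le (Real.one_lt_exp_iff.2 hL) ?_
      apply le_csInf ⟨_, gold_mem hGOL h0.le⟩
      rintro _ ⟨P, hP, rfl⟩
      exact Real.exp_le_exp.2 (hLP P hP)
    · intro v hv
      have hfin := fin_adm hLEP h0 h1 hv
      apply (hfin.biUnion (t := fun P => (↑(rts P) : Set ℂ))
        (fun P _ => (rts P).finite_toSet)).subset
      rintro α ⟨hα, hαv⟩
      obtain ⟨h2, h3, h4⟩ := hTRL.1 θ α hα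
      simp only [Set.mem_iUnion]
      exact ⟨minpoly ℤ α, ⟨h2, by rw [← h3]; exact hαv⟩, h4⟩
    · intro v hv hfin
      have hv0 : 0 < v := lt_trans (Real.exp_pos _) hv
      have hlog : lec θ < Real.log v := by
        rw [← Real.log_exp (lec θ)]
        exact Real.log_lt_log (Real.exp_pos _) hv
      obtain ⟨N, hN⟩ := (hfin.image (fun α => (minpoly ℤ α).natDegree)).bddAbove
      obtain ⟨F, hF, hFN, hFlv⟩ := (hLEP.1 θ h0 h1).2.1 ((Real.log v - lec θ) / 2)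
        (by linarith) (N + 1)
      obtain ⟨⟨α, hα⟩, h2⟩ := hTRL.2 θ F hF
      obtain ⟨h3, h4⟩ := h2 α hα
      have h5 : nM α < v := by
        rw [(hTRL.1 θ α h3).2.1, h4, ← Real.exp_log hv0]
        apply Real.exp_lt_exp.2
        linarith
      have h6 := hN ⟨α, ⟨h3, h5⟩, rfl⟩
      simp only [h4] at h6
      omega
  · rintro θ₀ ⟨h00, h01⟩
    obtain ⟨k, hk, hkP⟩ := hLEP.2.2.2.2 θ₀ h00 h01
    set k' := max k 1 with hk'
    have hk'1 : 1 ≤ k' := le_max_right _ _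
    have hkk' : k ≤ k' := le_max_left _ _
    have hlog2 : 0 < Real.log 2 := Real.log_pos one_lt_two
    have h5k : 0 ≤ Real.log (5 * k' ^ 2) := Real.log_nonneg (by nlinarith)
    have hfac : 1 ≤ Real.log (5 * k' ^ 2) / Real.log 2 + 2 := by
      have : 0 ≤ Real.log (5 * k' ^ 2) / Real.log 2 := by positivity
      linarith
    refine ⟨k' * (Real.log (5 * k' ^ 2) / Real.log 2 + 2), by positivity, ?_⟩
    rintro θ ⟨hθ0, hθ1⟩ A hA hinj
    have hθ : 0 < θ := lt_of_lt_of_le h00 hθ0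
    set T : ℝ := ∑ α ∈ A, ((minpoly ℤ α).natDegree : ℝ) with hT
    have hT0 : 0 ≤ T := Finset.sum_nonneg fun _ _ => Nat.cast_nonneg _
    have hinj' : Set.InjOn (minpoly ℤ) (A : Set ℂ) := fun α hα β hβ h => hinj α hα β hβ h
    have hdg : ((dg (A.image (minpoly ℤ)) : ℕ) : ℝ) = T := by
      rw [dg, Finset.sum_image hinj', hT]
      push_cast
      rfl
    have hsum : ∑ P ∈ A.image (minpoly ℤ), Real.log (MM P)
        = ∑ α ∈ A, ((minpoly ℤ α).natDegree : ℝ) * Real.log (nM α) := by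
      rw [Finset.sum_image hinj']
      apply Finset.sum_congr rfl
      intro α hα
      have hd : ((minpoly ℤ α).natDegree : ℝ) ≠ 0 := by
        have := natDegree_pos_of_sec hTRL (hA α hα)
        positivity
      rw [(hTRL.1 θ α (hA α hα)).2.1, Real.log_exp, lv]
      field_simp
    have hmain := hkP θ hθ0 hθ1 (A.image (minpoly ℤ)) (by
      intro P hP
      obtain ⟨α, hα, rfl⟩ := Finset.mem_image.1 hP
      exact (hTRL.1 θ α (hA α hα)).1)
    rw [hdg, hsum] at hmain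
    have hfirst : ∑ α ∈ A, ((minpoly ℤ α).natDegree : ℝ) *
        (Real.log (Real.exp (lec θ)) - Real.log (nM α)) ≤ k * Real.log (1 + T) := by
      have e : ∑ α ∈ A, ((minpoly ℤ α).natDegree : ℝ) *
          (Real.log (Real.exp (lec θ)) - Real.log (nM α))
          = lec θ * T - ∑ α ∈ A, ((minpoly ℤ α).natDegree : ℝ) * Real.log (nM α) := by
        rw [hT, Finset.mul_sum, ← Finset.sum_sub_distrib]
        apply Finset.sum_congr rfl
        intro α _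
        rw [Real.log_exp]
        ring
      rw [e, add_comm 1 T]
      linarith
    have hlogT : 0 ≤ Real.log (1 + T) := Real.log_nonneg (by linarith)
    have hTcast : (∑ α ∈ A, ((minpoly ℤ α).natDegree : ℝ)) = T := rfl
    constructor
    · refine le_trans hfirst ?_
      have h1 : k ≤ k' * (Real.log (5 * k' ^ 2) / Real.log 2 + 2) := by nlinarith
      have h2 := mul_le_mul_of_nonneg_right h1 hlogT
      refine le_trans h2 (le_of_eq ?_)
      rw [hT]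
      push_cast
      rfl
    · intro δ hδ hδ1 hδA
      apply log_ineq hk'1 hδ hδ1 hT0
      have h1 : T * δ ≤ ∑ α ∈ A, ((minpoly ℤ α).natDegree : ℝ) *
          (Real.log (Real.exp (lec θ)) - Real.log (nM α)) := by
        rw [hT, Finset.sum_mul]
        apply Finset.sum_le_sum
        intro α hα
        apply mul_le_mul_of_nonneg_left _ (Nat.cast_nonneg _)
        have h2 := hδA α hα
        rw [(hTRL.1 θ α (hA α hα)).2.1, ← Real.exp_add, Real.exp_le_exp] at h2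
        rw [(hTRL.1 θ α (hA α hα)).2.1, Real.log_exp, Real.log_exp]
        linarith
      refine le_trans h1 (le_trans hfirst ?_)
      exact mul_le_mul_of_nonneg_right hkk' hlogT
  · rintro θ ⟨h0, h1⟩
    rcases h0.lt_or_eq with h0 | h0
    · exact right_cont hTRL hGOL hLEP h0 h1
    · subst h0
      obtain ⟨ε, hε, _, hc⟩ := zer_const hZER hTRL hGOL
      have hev : cth =ᶠ[𝓝[≥] (0 : ℝ)] fun _ => cth 0 := by
        filter_upwards [Ico_mem_nhdsGE hε] with θ' hθ' using hc θ' hθ'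
      exact (continuousWithinAt_const.congr_of_eventuallyEq hev rfl)
  · intro a b ha hab hb
    rw [hSCR cth a b (fun x hx y hy hxy => cth_anti hTRL hGOL (le_trans ha.le hx.1) hxy)]
    apply forall₂_congr
    rintro θ ⟨h1, h2⟩
    rw [← const_iff hTRL hGOL hLEP (lt_of_lt_of_le ha h1) (lt_of_lt_of_le h2 hb)]
    constructor
    · rintro ⟨ε, hε, _, h⟩
      exact ⟨ε, hε, h⟩
    · rintro ⟨ε, hε, h⟩
      refine ⟨min ε (b - θ), lt_min hε (by linarith), by linarith [min_le_right ε (b - θ)], ?_⟩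
      intro θ' hθ'
      exact h θ' ⟨hθ'.1, lt_of_lt_of_le hθ'.2 (by linarith [min_le_left ε (b - θ)])⟩
  · rw [hSCR cth 0 Real.pi (fun x hx y hy hxy => cth_anti hTRL hGOL hx.1 hxy)]
    constructor
    · intro h θ hθ
      rw [← const_iff hTRL hGOL hLEP hθ.1 hθ.2]
      obtain ⟨ε, hε, _, h'⟩ := h θ ⟨hθ.1.le, hθ.2⟩
      exact ⟨ε, hε, h'⟩
    · intro h θ hθ
      rcases hθ.1.lt_or_eq with h0 | h0
      · have h1 := h θ ⟨h0, hθ.2⟩
        rw [← const_iff hTRL hGOL hLEP h0 hθ.2] at h1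
        obtain ⟨ε, hε, h2⟩ := h1
        refine ⟨min ε (Real.pi - θ), lt_min hε (by linarith [hθ.2]),
          by linarith [min_le_right ε (Real.pi - θ)], ?_⟩
        intro θ' hθ'
        exact h2 θ' ⟨hθ'.1, lt_of_lt_of_le hθ'.2 (by linarith [min_le_left ε (Real.pi - θ)])⟩
      · subst h0
        obtain ⟨ε, hε, hε1, hc⟩ := zer_const hZER hTRL hGOL
        refine ⟨ε, hε, by linarith, ?_⟩
        intro θ' hθ'
        rw [zero_add] at hθ'
        exact hc θ' hθ'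

end Pool.Agent.Work.MP_ce2d68_st.helper12
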