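import Pool.Agent.Work.MP_ce2d68_st.Interface

set_option autoImplicit false

open Polynomial Filter Topology
open scoped ComplexConjugate

namespace Pool.Agent.Work.MP_ce2d68_st.helper12

lemma ach_mono {θ x y : ℝ} (h : x ≤ y) (hx : Ach θ x) : Ach θ y := by
  intro ε hε D
  obtain ⟨F, h1, h2, h3⟩ := hx ε hε D
  exact ⟨F, h1, h2, by linarith⟩

lemma root_ne_zero {P : ℤ[X]} (h1 : P.Monic) (h2 : Irreducible P) (h3 : P ≠ X) :
    ∀ a ∈ rts P, a ≠ 0 := by
  rintro a ha rfl
  rw [rts, Multiset.mem_toFinset, Polynomial.mem_roots'] at ha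
  have h4 : (cp P).eval 0 = 0 := ha.2
  have h5 : P.coeff 0 = 0 := by
    rw [← Polynomial.coeff_zero_eq_eval_zero, cp, Polynomial.coeff_map] at h4
    simpa using h4
  have h6 : X ∣ P := Polynomial.X_dvd_iff.2 h5
  obtain ⟨Q, hQ⟩ := h6
  have h7 : IsUnit Q := by
    rcases h2.isUnit_or_isUnit hQ with h | h
    · exact absurd h Polynomial.not_isUnit_X
    · exact h
  have h8 : Q = 1 := by
    have : Q.Monic := by
      have h9 : (X * Q).Monic := hQ ▸ h1
      exact Polynomial.Monic.of_mul_monic_left Polynomial.monic_X h9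
    exact this.eq_one_of_isUnit h7
  rw [h8, mul_one] at hQ
  exact h3 hQ

lemma sum_log_nonneg (hBAS : Stmt_BAS) {P : ℤ[X]} (h1 : P.Monic) (h2 : Irreducible P)
    (h3 : P ≠ X) : 0 ≤ ∑ a ∈ rts P, Real.log ‖a‖ := by
  obtain ⟨_, hprod, _, _, _⟩ := hBAS P h1 h2
  have hne := root_ne_zero h1 h2 h3
  rw [← Real.log_prod (fun a ha => by simpa using hne a ha)]
  apply Real.log_nonneg
  have h4 : ‖(cp P).eval 0‖ = ∏ a ∈ rts P, ‖a‖ := by
    conv_lhs => rw [hprod]
    rw [Polynomial.eval_prod, norm_prod]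
    apply Finset.prod_congr rfl
    intro a _
    simp
  rw [← h4, ← Polynomial.coeff_zero_eq_eval_zero, cp, Polynomial.coeff_map]
  have h5 : P.coeff 0 ≠ 0 := by
    intro h0
    have h6 : (cp P).eval 0 = 0 := by
      rw [← Polynomial.coeff_zero_eq_eval_zero, cp, Polynomial.coeff_map, h0]; simp
    have h7 : ∏ a ∈ rts P, ‖a‖ ≠ 0 := Finset.prod_ne_zero_iff.2 (fun a ha => by
      simpa using hne a ha)
    rw [← h4, h6] at h7
    simp at h7
  have h6 : (1 : ℝ) ≤ |(P.coeff 0 : ℝ)| := by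
    have : (1 : ℤ) ≤ |P.coeff 0| := Int.one_le_abs h5
    exact_mod_cast this
  simpa [Complex.norm_intCast] using h6

lemma rs_singleton (P : ℤ[X]) : rs {P} = rts P := by
  rw [rs, Finset.singleton_biUnion]

lemma fam_singleton {P : ℤ[X]} (h1 : P.Monic) (h2 : Irreducible P) : Fam {P} := by
  intro Q hQ
  rw [Finset.mem_singleton] at hQ
  subst hQ
  exact ⟨h1, h2⟩

/-- sum of `log ‖a - b‖` over distinct roots -/
lemma disc_nonneg (hDSC : Stmt_DSC) {P : ℤ[X]} (h1 : P.Monic) (h2 : Irreducible P) :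
    0 ≤ ∑ a ∈ rts P, ∑ b ∈ (rts P).erase a, Real.log ‖a - b‖ := by
  have h := hDSC {P} (fam_singleton h1 h2) P (Finset.mem_singleton_self P)
  rw [rs_singleton] at h
  have hne : ∀ a ∈ rts P, ∀ b ∈ (rts P).erase a, ‖a - b‖ ≠ 0 := by
    intro a _ b hb
    rw [norm_ne_zero_iff, sub_ne_zero]
    exact (Finset.ne_of_mem_erase hb).symm
  have h' := Real.log_nonneg h
  rw [Real.log_prod (fun a ha => Finset.prod_ne_zero_iff.2 (hne a ha))] at h'
  rw [Finset.sum_congr rfl (fun a ha => Real.log_prod (hne a ha))] at h'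
  exact h'

lemma ev_norm (hBAS : Stmt_BAS) {P : ℤ[X]} (h1 : P.Monic) (h2 : Irreducible P) (z : ℂ) :
    ‖ev P z‖ = ∏ a ∈ rts P, ‖z - a‖ := by
  obtain ⟨_, hprod, _, _, _⟩ := hBAS P h1 h2
  rw [ev]
  conv_lhs => rw [hprod]
  rw [Polynomial.eval_prod, norm_prod]
  apply Finset.prod_congr rfl
  intro a _
  simp

lemma pc_eq (a z : ℂ) (t : ℝ) (ht : 0 ≤ t) :
    pc a 0 ((t : ℝ) : ℂ) z = max ‖z - a‖ t := by
  rw [pc, zero_mul, zero_add, Complex.norm_real, Real.norm_of_nonneg ht]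

theorem stmt_ST2A (hBAS : Stmt_BAS) (hBASF : Stmt_BASF) (hDSC : Stmt_DSC) (hETP : Stmt_ETP)
    (hCOST : Stmt_COST) (hGEO2 : Stmt_GEO2) : Stmt_ST2A := by
  intro θ θ' hθ hθθ' hθ'
  obtain ⟨s₁, hs₁, hs₁', hgeo⟩ := hGEO2 θ θ' hθ hθθ' hθ'
  refine ⟨s₁, hs₁, hs₁', ?_⟩
  intro s hs hss q b₁ R₁ b₂ R₂ W₀ c c' hq hR₁ hR₂ hW₀ hc hd₁ hd₂ hb hW hca hc' hb₂ P hP B hB hqB
  obtain ⟨hd, hprod, hcard, hconj, hMM⟩ := hBAS P hP.1 hP.2.1
  have hne := root_ne_zero hP.1 hP.2.1 hP.2.2.1
  have hlog0 := sum_log_nonneg hBAS hP.1 hP.2.1 hP.2.2.1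
  have hdisc := disc_nonneg hDSC hP.1 hP.2.1
  have hev := ev_norm hBAS hP.1 hP.2.1
  have hdR : (0 : ℝ) < P.natDegree := by exact_mod_cast hd
  have hlv : (P.natDegree : ℝ) * lv P = ∑ a ∈ rts P, Real.posLog ‖a‖ := by
    rw [← hMM, lv]; field_simp
  have hlv0 : 0 ≤ lv P := by
    have : 0 ≤ Real.log (MM P) := Real.log_nonneg hP.2.2.2.2.le
    rw [lv]; positivity
  have hs1 : s ≤ 1 / 16 := le_trans hss hs₁'
  have hlogs : Real.log s ≤ 0 := Real.log_nonpos hs.le (by linarith)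
  have hlogs' : Real.log (1 / s) = - Real.log s := by rw [one_div, Real.log_inv]
  set S : Finset ℂ := (rts P).filter (fun a => ¬ c' < Real.log ‖a‖) with hS
  set G : Finset ℂ := lg c' P with hG
  have hGdef : G = (rts P).filter (fun a => c' < Real.log ‖a‖) := rfl
  set Lam : ℝ := ∑ a ∈ G, Real.log ‖a‖ with hLam
  set nl : ℕ := G.card with hnl
  have hGlog : ∀ a ∈ G, 1 < Real.log ‖a‖ ∧ c' < Real.log ‖a‖ := by
    intro a ha
    rw [hGdef, Finset.mem_filter] at ha
    exact ⟨lt_of_le_of_lt hc' ha.2, ha.2⟩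
  have hGnorm : ∀ a ∈ G, Real.exp c' < ‖a‖ ∧ 1 ≤ ‖a‖ := by
    intro a ha
    have h0 : 0 < ‖a‖ := by
      rw [hGdef, Finset.mem_filter] at ha
      exact norm_pos_iff.2 (hne a ha.1)
    have h1 := (Real.lt_log_iff_exp_lt h0).1 (hGlog a ha).2
    refine ⟨h1, ?_⟩
    have h2 : (1 : ℝ) ≤ Real.exp c' := Real.one_le_exp (by linarith)
    linarith
  have hLam0 : 0 ≤ Lam := Finset.sum_nonneg fun a ha => by linarith [(hGlog a ha).1]
  have hSsub : ∀ a ∈ S, a ∈ rts P := fun a ha => (Finset.mem_filter.1 ha).1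
  have hGsub : ∀ a ∈ G, a ∈ rts P := fun a ha => (Finset.mem_filter.1 ha).1
  have hSnorm : ∀ a ∈ S, ‖a‖ ≤ Real.exp c' := by
    intro a ha
    have h0 : 0 < ‖a‖ := norm_pos_iff.2 (hne a (hSsub a ha))
    exact (Real.log_le_iff_le_exp h0).1 (not_lt.1 (Finset.mem_filter.1 ha).2)
  have hcardSG : G.card + S.card = P.natDegree := by
    rw [← hcard, hGdef, hS]
    exact Finset.card_filter_add_card_filter_not _
  have hsplit : ∀ f : ℂ → ℝ, ∑ a ∈ G, f a + ∑ a ∈ S, f a = ∑ a ∈ rts P, f a := by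
    intro f
    rw [hGdef, hS]
    exact Finset.sum_filter_add_sum_filter_not _ _ _
  have hsplitp : ∀ f : ℂ → ℝ, (∏ a ∈ G, f a) * ∏ a ∈ S, f a = ∏ a ∈ rts P, f a := by
    intro f
    rw [hGdef, hS]
    exact Finset.prod_filter_mul_prod_filter_not _ _ _
  have hb₂' : b₂ ≤ Real.exp c' :=
    le_trans (Real.le_exp_log b₂) (Real.exp_le_exp.2 hb₂)
  -- parameters
  set lam : ℝ := Lam + nl * Real.log 3 with hlam
  set A : ℝ := Lam + nl * (Real.log 2 + lv P) + Real.log (1 / s) + Lam / P.natDegree with hA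
  have hlog3 : 0 < Real.log 3 := Real.log_pos (by norm_num)
  have hlog2 : 0 < Real.log 2 := Real.log_pos (by norm_num)
  have hlog3' : Real.log 3 ≤ 2 := by
    have := Real.log_le_sub_one_of_pos (show (0 : ℝ) < 3 by norm_num)
    linarith
  have hlog2' : Real.log 2 ≤ 2 := by
    have := Real.log_le_sub_one_of_pos (show (0 : ℝ) < 2 by norm_num)
    linarith
  have hnl0 : (0 : ℝ) ≤ nl := Nat.cast_nonneg _
  have hLamd : 0 ≤ Lam / P.natDegree := by positivity
  have hlogs'' : 0 ≤ Real.log (1 / s) := by rw [hlogs']; linarith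
  have key := hETP θ' {P} ℂ S (fun a => a) (fun _ => 0) (fun a => ((s * ‖a‖ : ℝ) : ℂ)) (fun _ => 1)
    (fun a => conj a) {0, 1} (fun j => if j = 0 then b₁ else b₂) (fun j => if j = 0 then R₁ else R₂)
    (fun j => if j = 0 then B else (q - 1) * B) 1 0 1 (2 * Real.exp c') lam A 0 (B * W₀)
    (fun a => Real.posLog ‖a‖ + 2 * s)
    (fun j => if j = 0 then ca (fun z => Real.log (max ‖z - b₁‖ R₁))
      else ca (fun z => Real.log (max ‖z - b₂‖ R₂))) 0
    (fam_singleton hP.1 hP.2.1) (Finset.singleton_nonempty P)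
  have hdg : dg {P} = P.natDegree := by rw [dg, Finset.sum_singleton]
  have hpr : pr {P} = P := by rw [pr, Finset.prod_singleton]
  have hq1 : B + (q - 1) * B = q * B := by
    obtain ⟨r, rfl⟩ : ∃ r, q = r + 1 := ⟨q - 1, by omega⟩
    rw [Nat.add_sub_cancel]; ring
  have hJ : ∀ f : ℕ → ℕ, ∑ j ∈ ({0, 1} : Finset ℕ), f j = f 0 + f 1 := by
    intro f
    rw [Finset.sum_pair (by norm_num)]
  have hJr : ∀ f : ℕ → ℝ, ∑ j ∈ ({0, 1} : Finset ℕ), f j = f 0 + f 1 := by
    intro f
    rw [Finset.sum_pair (by norm_num)]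
  have hqR : ((q - 1 : ℕ) : ℝ) = (q : ℝ) - 1 := by
    rw [Nat.cast_sub (by omega)]; simp
  -- the pieces
  have hpc : ∀ a z : ℂ, pc a 0 ((s * ‖a‖ : ℝ) : ℂ) z = max ‖z - a‖ (s * ‖a‖) := by
    intro a z
    exact pc_eq a z _ (by positivity)
  have hpcpos : ∀ a ∈ rts P, ∀ z : ℂ, 0 < max ‖z - a‖ (s * ‖a‖) := by
    intro a ha z
    have h0 : 0 < ‖a‖ := norm_pos_iff.2 (hne a ha)
    exact lt_max_of_lt_right (by positivity)
  have key' := key ?_ ?_ ?_ ?_ ?_ ?_ one_pos le_rfl (by simp) le_rfl ?_ ?_ ?_ ?_ ?_ ?_ ?_ ?_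
    (by simp) ?_ ?_ (by simp)
  · refine ach_mono ?_ key'
    -- final comparison
    have hcardR : (S.card : ℝ) = P.natDegree - nl := by
      rw [eq_sub_iff_add_eq, ← hcardSG]; push_cast; ring
    have hden : ((∑ i ∈ S, (1 : ℕ) + ∑ j ∈ ({0, 1} : Finset ℕ), (if j = 0 then B else (q - 1) * B)
        + 0 : ℕ) : ℝ) = P.natDegree - nl + q * B := by
      rw [hJ]
      simp only [Finset.sum_const, smul_eq_mul, mul_one, if_true, one_ne_zero, if_false]
      rw [hq1]
      push_cast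
      rw [hcardR]
      ring
    have hden0 : (0 : ℝ) ≤ P.natDegree - nl + q * B := by
      rw [← hden]; exact Nat.cast_nonneg _
    rw [hden]
    apply div_le_div_of_nonneg_right _ hden0
    rw [hJr]
    simp only [if_true, one_ne_zero, if_false, Nat.cast_one, one_mul, Nat.cast_zero, zero_mul,
      add_zero]
    have h1 : ∑ i ∈ S, (Real.posLog ‖i‖ + 2 * s)
        ≤ P.natDegree * lv P - Lam + 2 * s * P.natDegree := by
      rw [Finset.sum_add_distrib, hlv, ← hsplit]
      have h2 : ∑ a ∈ G, Real.posLog ‖a‖ = Lam := by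
        apply Finset.sum_congr rfl
        intro a ha
        rw [Real.posLog_apply, max_eq_right (by linarith [(hGlog a ha).1])]
      rw [h2, Finset.sum_const, nsmul_eq_mul, hcardR]
      have : (0 : ℝ) ≤ nl * (2 * s) := by positivity
      linarith
    have h2 : (B : ℝ) * ca (fun z => Real.log (max ‖z - b₁‖ R₁))
        + (((q - 1) * B : ℕ) : ℝ) * ca (fun z => Real.log (max ‖z - b₂‖ R₂))
        ≤ B * (W₀ + c) := by
      have h3 := mul_le_mul_of_nonneg_left hca (Nat.cast_nonneg (α := ℝ) B)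
      refine le_trans (le_of_eq ?_) h3
      push_cast
      rw [hqR]
      ring
    linarith
  · -- conjugation
    intro a ha
    have ha' := Finset.mem_filter.1 ha
    refine ⟨?_, by simp, by simp, by simp, ?_, rfl⟩
    · rw [hS, Finset.mem_filter]
      exact ⟨hconj a ha'.1, by rw [Complex.norm_conj]; exact ha'.2⟩
    · simp only [Complex.norm_conj, Complex.conj_ofReal]
  · intro a _
    simp
  · intro a ha z
    rw [hpc]
    exact hpcpos a (hSsub a ha) z
  · intro a ha z hz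
    have h0 : 0 < ‖a‖ := norm_pos_iff.2 (hne a (hSsub a ha))
    have hz' : ‖z - a‖ ≤ s * ‖a‖ := by
      rwa [zero_mul, zero_add, Complex.norm_real, Real.norm_of_nonneg (by positivity)] at hz
    constructor
    · exact hgeo a z (hne a (hSsub a ha)) (hP.2.2.2.1 a (hSsub a ha))
        (le_trans hz' (mul_le_mul_of_nonneg_right hss h0.le))
    · have h1 : ‖z‖ ≤ ‖z - a‖ + ‖a‖ := by
        calc ‖z‖ = ‖(z - a) + a‖ := by ring_nf
          _ ≤ _ := norm_add_le _ _
      have h2 := hSnorm a ha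
      have h3 : s * ‖a‖ ≤ 1 * ‖a‖ := mul_le_mul_of_nonneg_right (by linarith) h0.le
      linarith
  · intro j hj
    fin_cases hj <;> simp [hR₁, hR₂]
  · intro j hj z hz
    fin_cases hj
    · simp only [if_pos] at hz
      obtain ⟨h1, h2⟩ := hd₁ z hz
      exact ⟨h1, by linarith⟩
    · simp only [one_ne_zero, if_false] at hz
      obtain ⟨h1, h2⟩ := hd₂ z hz
      exact ⟨h1, by linarith⟩
  · -- sum n ≤ dg
    rw [hdg]
    simp only [Finset.sum_const, smul_eq_mul, mul_one, one_mul]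
    omega
  · rw [hdg, hJ]
    simp only [Finset.sum_const, smul_eq_mul, mul_one, one_mul, if_true, one_ne_zero, if_false]
    rw [hq1]
    omega
  · -- upper bound
    intro z hz
    rw [hpr, pow_one, hev z, ← hsplitp]
    have h1 : ∏ a ∈ G, ‖z - a‖ ≤ Real.exp lam := by
      have h2 : ∏ a ∈ G, ‖z - a‖ ≤ ∏ a ∈ G, Real.exp (Real.log ‖a‖ + Real.log 3) := by
        apply Finset.prod_le_prod (fun a _ => norm_nonneg _)
        intro a ha
        obtain ⟨h3, h4⟩ := hGnorm a ha
        rw [Real.exp_add, Real.exp_log (by linarith), Real.exp_log (by norm_num)]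
        have h5 : ‖z - a‖ ≤ ‖z‖ + ‖a‖ := norm_sub_le _ _
        linarith
      refine le_trans h2 (le_of_eq ?_)
      rw [← Real.exp_sum, Finset.sum_add_distrib, Finset.sum_const, nsmul_eq_mul]
    have h2 : ∏ a ∈ S, ‖z - a‖ ≤ ∏ i ∈ S, pc i 0 ((s * ‖i‖ : ℝ) : ℂ) z ^ 1 := by
      apply Finset.prod_le_prod (fun a _ => norm_nonneg _)
      intro a _
      rw [pow_one, hpc]
      exact le_max_left _ _
    exact mul_le_mul h1 h2 (Finset.prod_nonneg fun _ _ => norm_nonneg _) (Real.exp_pos _).le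
  · -- lower bound of the big discs
    intro z _
    rw [Finset.prod_pair (by norm_num)]
    simp only [if_true, one_ne_zero, if_false]
    have hm1 : 0 < max ‖z - b₁‖ R₁ := lt_max_of_lt_right (by linarith)
    have hm2 : 0 < max ‖z - b₂‖ R₂ := lt_max_of_lt_right (by linarith)
    have h1 : (max ‖z - b₁‖ R₁) ^ B = Real.exp (B * Real.log (max ‖z - b₁‖ R₁)) := by
      rw [← Real.log_pow, Real.exp_log (by positivity)]
    have h2 : (max ‖z - b₂‖ R₂) ^ ((q - 1) * B)
        = Real.exp (((q - 1) * B : ℕ) * Real.log (max ‖z - b₂‖ R₂)) := by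
      rw [← Real.log_pow, Real.exp_log (by positivity)]
    rw [h1, h2, ← Real.exp_add]
    apply Real.exp_le_exp.2
    have h3 := mul_le_mul_of_nonneg_left (hW z) (Nat.cast_nonneg (α := ℝ) B)
    refine le_trans h3 (le_of_eq ?_)
    push_cast
    rw [hqR]
    ring
  · positivity
  · positivity
  · -- lower bound at the roots
    intro Q hQ
    rw [Finset.mem_singleton] at hQ
    subst hQ
    set g : ℂ → ℂ → ℝ := fun a i => if i = a then Real.log (s * ‖i‖) else Real.log ‖a - i‖ with hg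
    have h1 : ∀ a ∈ rts Q, ∑ i ∈ S, g a i
        ≤ Real.log (∏ i ∈ S, pc i 0 ((s * ‖i‖ : ℝ) : ℂ) a ^ 1) := by
      intro a ha
      have h2 : ∏ i ∈ S, pc i 0 ((s * ‖i‖ : ℝ) : ℂ) a ^ 1
          = ∏ i ∈ S, max ‖a - i‖ (s * ‖i‖) := by
        apply Finset.prod_congr rfl
        intro i _
        rw [pow_one, hpc]
      rw [h2, Real.log_prod (fun i hi => (hpcpos i (hSsub i hi) a).ne')]
      apply Finset.sum_le_sum
      intro i hi
      have h0 : 0 < ‖i‖ := norm_pos_iff.2 (hne i (hSsub i hi))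
      rw [hg]
      simp only
      split_ifs with h
      · exact Real.log_le_log (by positivity) (le_max_right _ _)
      · exact Real.log_le_log (norm_pos_iff.2 (sub_ne_zero.2 (Ne.symm h))) (le_max_left _ _)
    have h2 : ∀ a ∈ rts Q, ∑ i ∈ rts Q, g a i
        = Real.log s + Real.log ‖a‖ + ∑ i ∈ (rts Q).erase a, Real.log ‖a - i‖ := by
      intro a ha
      have h0 : 0 < ‖a‖ := norm_pos_iff.2 (hne a ha)
      rw [← Finset.add_sum_erase _ _ ha]
      congr 1
      · rw [hg]; simp only [if_true]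
        rw [Real.log_mul hs.ne' h0.ne']
      · apply Finset.sum_congr rfl
        intro i hi
        rw [hg]; simp only
        rw [if_neg (Finset.ne_of_mem_erase hi)]
    have h3 : ∀ a ∈ rts Q, ∑ i ∈ G, g a i
        ≤ nl * Real.log 2 + Lam + nl * Real.posLog ‖a‖ := by
      intro a ha
      have h0 : 0 < ‖a‖ := norm_pos_iff.2 (hne a ha)
      have h4 : ∑ i ∈ G, g a i ≤ ∑ i ∈ G, (Real.log 2 + Real.log ‖i‖ + Real.posLog ‖a‖) := by
        apply Finset.sum_le_sum
        intro i hi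
        obtain ⟨_, hi1⟩ := hGnorm i hi
        have hi0 : 0 < ‖i‖ := by linarith
        have hpl : 0 ≤ Real.posLog ‖a‖ := Real.posLog_nonneg
        rw [hg]; simp only
        split_ifs with h
        · rw [Real.log_mul hs.ne' hi0.ne']
          linarith
        · have h5 : 0 < ‖a - i‖ := norm_pos_iff.2 (sub_ne_zero.2 (Ne.symm h))
          have h6 : ‖a - i‖ ≤ 2 * ‖i‖ * max 1 ‖a‖ := by
            have h7 : ‖a - i‖ ≤ ‖a‖ + ‖i‖ := norm_sub_le _ _
            have h8 : 1 ≤ max 1 ‖a‖ := le_max_left _ _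
            have h9 : ‖a‖ ≤ max 1 ‖a‖ := le_max_right _ _
            nlinarith
          have h7 := Real.log_le_log h5 h6
          rw [Real.log_mul (by positivity) (by positivity), Real.log_mul (by norm_num) hi0.ne',
            ← Real.posLog_eq_log_max_one h0.le] at h7
          exact h7
      refine le_trans h4 (le_of_eq ?_)
      rw [Finset.sum_add_distrib, Finset.sum_add_distrib, Finset.sum_const, Finset.sum_const,
        nsmul_eq_mul, nsmul_eq_mul]
    have h4 : ∀ a ∈ rts Q, Real.log s + Real.log ‖a‖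
          + ∑ i ∈ (rts Q).erase a, Real.log ‖a - i‖
          - (nl * Real.log 2 + Lam + nl * Real.posLog ‖a‖)
        ≤ Real.log (∏ i ∈ S, pc i 0 ((s * ‖i‖ : ℝ) : ℂ) a ^ 1) := by
      intro a ha
      have e := hsplit (g a)
      rw [h2 a ha] at e
      have := h1 a ha
      have := h3 a ha
      linarith
    refine le_trans ?_ (Finset.sum_le_sum h4)
    rw [Finset.sum_sub_distrib, Finset.sum_add_distrib, Finset.sum_add_distrib,
      Finset.sum_add_distrib, Finset.sum_const, Finset.sum_const, nsmul_eq_mul, nsmul_eq_mul,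
      hcard, ← Finset.mul_sum, ← hlv]
    have h5 : A * Q.natDegree = Lam * Q.natDegree + nl * (Real.log 2 + lv Q) * Q.natDegree
        - Real.log s * Q.natDegree + Lam := by
      rw [hA, hlogs']; field_simp; ring
    rw [h5]
    nlinarith
  · -- max A lam + 1 ≤ om
    have h1 : A + 1 ≤ B * W₀ := by
      refine le_trans ?_ hB
      rw [hA]
      have : (nl : ℝ) * (Real.log 2 + lv P) ≤ nl * (lv P + 2) :=
        mul_le_mul_of_nonneg_left (by linarith) hnl0
      linarith
    have h2 : lam + 1 ≤ B * W₀ := by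
      refine le_trans ?_ hB
      rw [hlam]
      have : (nl : ℝ) * Real.log 3 ≤ nl * (lv P + 2) :=
        mul_le_mul_of_nonneg_left (by linarith) hnl0
      linarith
    rcases max_cases A lam with h | h <;> rw [h.1] <;> assumption
  · -- costs
    intro a ha
    have h0 : 0 < ‖a‖ := norm_pos_iff.2 (hne a (hSsub a ha))
    have h1 := hCOST a (s * ‖a‖) (by positivity) (by nlinarith)
    have h2 : 2 * (s * ‖a‖) / ‖a‖ = 2 * s := by field_simp
    rw [h2] at h1
    simp only [hpc]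
    exact h1
  · intro j hj
    fin_cases hj
    · simp
    · simp

end Pool.Agent.Work.MP_ce2d68_st.helper12
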